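import Pool.Agent.H874R3.MQ.Stmts

/-! Project H874-MQ, task DER. -/

set_option autoImplicit false

namespace Pool.Agent.H237R3.MQ

open Real Set MeasureTheory Filter Topology
open scoped ContDiff
open Pool.Agent.H874R3.MQ

theorem taskDer : TaskDer := by
  intro K c w hc hK hw s hs
  have hopen : IsOpen (Iio (1:ℝ) ×ˢ (univ : Set ℝ)) := isOpen_Iio.prod isOpen_univ
  have hKc : ContinuousOn (Function.uncurry K) (Iio 1 ×ˢ univ) := hK.continuousOn
  have hslice : ∀ σ < 1, Continuous (fun x => K σ x) := by
    intro σ hσ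
    have : ContinuousOn (fun x => Function.uncurry K (σ, x)) univ :=
      hKc.comp (by fun_prop) (fun x _ => ⟨hσ, trivial⟩)
    exact continuousOn_univ.1 this
  have hfc : ∀ σ < 1, ContinuousOn (fun x => K σ x * w x) (Iio 1) :=
    fun σ hσ => (hslice σ hσ).continuousOn.mul hw
  have hint : ∀ σ < 1, ∀ a b : ℝ, a < 1 → b < 1 →
      IntervalIntegrable (fun x => K σ x * w x) volume a b := by
    intro σ hσ a b ha hb
    apply ContinuousOn.intervalIntegrable
    exact (hfc σ hσ).mono (fun x hx => lt_of_le_of_lt hx.2 (max_lt ha hb))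
  -- the partial derivative
  set D : ℝ × ℝ → ℝ := fun q => fderiv ℝ (Function.uncurry K) q (1, 0) with hD
  have hDd : ∀ σ < 1, ∀ x, HasDerivAt (fun σ => K σ x) (D (σ, x)) σ := by
    intro σ hσ x
    have h1 : DifferentiableAt ℝ (Function.uncurry K) (σ, x) :=
      (hK.differentiableOn (by simp)).differentiableAt (hopen.mem_nhds ⟨hσ, trivial⟩)
    have h2 : HasDerivAt (fun σ : ℝ => (σ, x)) ((1 : ℝ), (0 : ℝ)) σ :=
      (hasDerivAt_id σ).prodMk (hasDerivAt_const σ x)
    exact h1.hasFDerivAt.comp_hasDerivAt σ h2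
  have hDc : ContinuousOn D (Iio 1 ×ˢ univ) :=
    (hK.continuousOn_fderiv_of_isOpen hopen (by simp)).clm_apply continuousOn_const
  -- first part
  have hε : 0 < (1 - s) / 2 := by linarith
  have hrect : Icc (s - (1 - s) / 2) (s + (1 - s) / 2) ×ˢ uIcc c s ⊆ Iio 1 ×ˢ Iio 1 := by
    rintro ⟨σ, x⟩ ⟨h1, h2⟩
    refine ⟨?_, lt_of_le_of_lt h2.2 (max_lt hc hs)⟩
    have := h1.2
    simp only [mem_Iio] at this ⊢
    linarith
  have hDw : ContinuousOn (fun q : ℝ × ℝ => D q * w q.2) (Iio 1 ×ˢ Iio 1) :=
    (hDc.mono (prod_mono subset_rfl (subset_univ _))).mul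
      (hw.comp continuousOn_snd (fun q hq => hq.2))
  obtain ⟨C, hC⟩ := (isCompact_Icc.prod isCompact_uIcc).exists_bound_of_continuousOn
    (hDw.mono hrect)
  have hpart1 : HasDerivAt (fun σ => ∫ x in c..s, K σ x * w x)
      (∫ x in c..s, D (s, x) * w x) s := by
    refine (intervalIntegral.hasDerivAt_integral_of_dominated_loc_of_deriv_le
      (F := fun σ x => K σ x * w x) (F' := fun σ x => D (σ, x) * w x) (bound := fun _ => C)
      (s := Ioo (s - (1 - s) / 2) (s + (1 - s) / 2))
      (Ioo_mem_nhds (by linarith) (by linarith)) ?_ (hint s hs c s hc hs) ?_ ?_ ?_ ?_).2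
    · filter_upwards [Iio_mem_nhds hs] with σ hσ
      exact (intervalIntegrable_iff.1 (hint σ hσ c s hc hs)).aestronglyMeasurable
    · have : IntervalIntegrable (fun x => D (s, x) * w x) volume c s := by
        apply ContinuousOn.intervalIntegrable
        refine hDw.comp (f := fun x : ℝ => (s, x)) (by fun_prop) ?_
        intro x hx
        exact ⟨hs, lt_of_le_of_lt hx.2 (max_lt hc hs)⟩
      exact (intervalIntegrable_iff.1 this).aestronglyMeasurable
    · refine Filter.Eventually.of_forall ?_
      intro x hx σ hσ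
      exact hC (σ, x) ⟨Ioo_subset_Icc_self hσ, uIoc_subset_uIcc hx⟩
    · exact intervalIntegrable_const
    · refine Filter.Eventually.of_forall ?_
      intro x hx σ hσ
      have hσ1 : σ < 1 := by
        have := hσ.2
        linarith
      exact (hDd σ hσ1 x).mul_const (w x)
  -- second part
  have hpart2 : HasDerivAt (fun σ => ∫ x in s..σ, K σ x * w x) (K s s * w s) s := by
    rw [hasDerivAt_iff_isLittleO, Asymptotics.isLittleO_iff]
    intro η hη
    have hcont : ContinuousAt (fun q : ℝ × ℝ => K q.1 q.2 * w q.2) (s, s) := by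
      have h1 : ContinuousOn (fun q : ℝ × ℝ => K q.1 q.2 * w q.2) (Iio 1 ×ˢ Iio 1) :=
        (hKc.mono (prod_mono subset_rfl (subset_univ _))).mul
          (hw.comp continuousOn_snd (fun q hq => hq.2))
      exact h1.continuousAt ((isOpen_Iio.prod isOpen_Iio).mem_nhds ⟨hs, hs⟩)
    rw [Metric.continuousAt_iff] at hcont
    obtain ⟨δ, hδ, hball⟩ := hcont η hη
    filter_upwards [Metric.ball_mem_nhds s hδ, Iio_mem_nhds hs] with σ hσ hσ1
    simp only [intervalIntegral.integral_same, sub_zero]
    have hconst : (σ - s) • (K s s * w s) = ∫ _ in s..σ, K s s * w s := by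
      rw [intervalIntegral.integral_const]
    rw [hconst, ← intervalIntegral.integral_sub (hint σ hσ1 s σ hs hσ1) intervalIntegrable_const]
    rw [Real.norm_eq_abs (σ - s)]
    apply intervalIntegral.norm_integral_le_of_norm_le_const
    intro x hx
    have hxs : dist x s < δ := by
      have h1 : dist x s ≤ dist σ s := by
        have h2 := uIoc_subset_uIcc hx
        rw [Real.dist_eq, Real.dist_eq]
        have := abs_sub_left_of_mem_uIcc h2
        exact this
      exact lt_of_le_of_lt h1 hσ
    have h3 : dist ((σ, x) : ℝ × ℝ) (s, s) < δ := by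
      rw [Prod.dist_eq]
      exact max_lt hσ hxs
    have h4 := hball h3
    rw [Real.dist_eq] at h4
    exact h4.le
  have hsum := hpart2.add hpart1
  have heq : (∫ x in c..s, deriv (fun σ => K σ x) s * w x) = ∫ x in c..s, D (s, x) * w x := by
    apply intervalIntegral.integral_congr
    intro x _
    simp only
    rw [(hDd s hs x).deriv]
  rw [heq]
  refine hsum.congr_of_eventuallyEq ?_
  filter_upwards [Iio_mem_nhds hs] with σ hσ1
  simp only [Pi.add_apply]
  rw [add_comm]
  exact (intervalIntegral.integral_add_adjacent_intervals (hint σ hσ1 c s hc hs)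
    (hint σ hσ1 s σ hs hσ1)).symm

end Pool.Agent.H237R3.MQ
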